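import Pool.Agent.PSS.StmtsS0

/-!
# Row ZRT of squad PSS: the transfer is central
-/

open scoped BigOperators

namespace Pool.Agent.PSS.S0.H80

open Pool.Agent.PSS Pool.Agent.PSS.S0

theorem comm_of_fx {R V A : Type} [CommRing R] [CommGroup V] [Ring A] [Algebra R A]
    (α : V →* A) (a : A) (ha : a ∈ FxR (cw R α) ⊤) (v : V) : α v * a = a * α v := by
  have h : α v * (a * α v⁻¹) = a := ha v (Subgroup.mem_top v)
  have h2 : α v * (a * α v⁻¹) * α v = a * α v := by rw [h]
  rw [← h2, mul_assoc, mul_assoc, ← map_mul, inv_mul_cancel, map_one, mul_one]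

theorem zrt : ZrtStmt := by
  intro R V A K _ _ _ _ _ _ α lam x y hF a ha c
  have hc : ∀ v, α v * a = a * α v := comm_of_fx α a ha
  have h1 : ∀ k, c * (x k * a * y k) =
      ∑ l, x l * a * ∑ v, lam (α v⁻¹ * y l * (c * x k)) • (α v * y k) := by
    intro k
    have e := hF.e1 (c * x k)
    calc c * (x k * a * y k) = (c * x k) * (a * y k) := by simp only [mul_assoc]
      _ = (∑ l, ∑ v, lam (α v⁻¹ * y l * (c * x k)) • (x l * α v)) * (a * y k) := by rw [e]
      _ = _ := by
        rw [Finset.sum_mul]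
        refine Finset.sum_congr rfl fun l _ => ?_
        rw [Finset.sum_mul, Finset.mul_sum]
        refine Finset.sum_congr rfl fun v _ => ?_
        rw [smul_mul_assoc, mul_smul_comm]
        congr 1
        calc x l * α v * (a * y k) = x l * (α v * a) * y k := by simp only [mul_assoc]
          _ = x l * a * (α v * y k) := by rw [hc v]; simp only [mul_assoc]
  have h2 : ∀ l, ∑ k, ∑ v, lam (α v⁻¹ * y l * (c * x k)) • (α v * y k) = y l * c := by
    intro l
    rw [← hF.e2 (y l * c)]
    refine Finset.sum_congr rfl fun k _ => ?_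
    refine Fintype.sum_equiv (Equiv.inv V) _ _ fun v => ?_
    simp only [Equiv.inv_apply, inv_inv]
    congr 1
    rw [mul_assoc, hF.sym (α v⁻¹)]
    simp only [mul_assoc]
  rw [Finset.mul_sum, Finset.sum_mul]
  simp only [h1]
  rw [Finset.sum_comm]
  refine Finset.sum_congr rfl fun l _ => ?_
  rw [← Finset.mul_sum, h2 l]
  simp only [mul_assoc]

end Pool.Agent.PSS.S0.H80
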