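import Pool.Agent.PSS.StmtsS5

/-!
# Row LCN of squad PSS: conjugation of local idempotents
-/

open scoped BigOperators

namespace Pool.Agent.PSS.S5.H80

open Pool.Agent.PSS Pool.Agent.PSS.S5
open Pool.Agent.PFC (IsTv)

section

variable {F V A : Type} [Field F] [CommGroup V] [Ring A] [Algebra F A]

theorem cw_apply' (α : V →* A) (v : V) (a : A) : cw F α v a = α v * (a * α v⁻¹) := rfl

theorem mem_fx (α : V →* A) (a : A) :
    a ∈ FxR (cw F α) ⊤ ↔ ∀ v, α v * a = a * α v := by
  constructor
  · intro ha v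
    have h : α v * (a * α v⁻¹) = a := ha v (Subgroup.mem_top v)
    have h2 : α v * (a * α v⁻¹) * α v = a * α v := by rw [h]
    rw [← h2, mul_assoc, mul_assoc, ← map_mul, inv_mul_cancel, map_one, mul_one]
  · intro h v _
    rw [cw_apply', ← mul_assoc, h v, mul_assoc, ← map_mul, mul_inv_cancel, map_one, mul_one]

theorem swap' (α : V →* A) (s : MulAut V) (y y' : A) (h1 : y * y' = 1) (h2 : y' * y = 1)
    (hy : ∀ u, y * α u = α (s u) * y) (u : V) : α u * y' = y' * α (s u) := by
  calc α u * y' = y' * y * (α u * y') := by rw [h2, one_mul]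
    _ = y' * (y * α u) * y' := by simp only [mul_assoc]
    _ = y' * (α (s u) * y) * y' := by rw [hy u]
    _ = y' * α (s u) * (y * y') := by simp only [mul_assoc]
    _ = y' * α (s u) := by rw [h1, mul_one]

theorem inv_swap (α : V →* A) (s : MulAut V) (y y' : A) (h1 : y * y' = 1) (h2 : y' * y = 1)
    (hy : ∀ u, y * α u = α (s u) * y) (u : V) : y' * α u = α (s⁻¹ u) * y' := by
  have h := swap' α s y y' h1 h2 hy (s⁻¹ u)
  rw [h, MulAut.apply_inv_self]

theorem fx_conj (α : V →* A) (s : MulAut V) (y y' : A) (h1 : y * y' = 1) (h2 : y' * y = 1)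
    (hy : ∀ u, y * α u = α (s u) * y) (x : A) (hx : x ∈ FxR (cw F α) ⊤) :
    y * x * y' ∈ FxR (cw F α) ⊤ := by
  rw [mem_fx] at hx ⊢
  intro v
  have e1 : α v * y = y * α (s⁻¹ v) := by
    rw [hy, MulAut.apply_inv_self]
  have e2 : α (s⁻¹ v) * y' = y' * α v := by
    rw [swap' α s y y' h1 h2 hy, MulAut.apply_inv_self]
  calc α v * (y * x * y') = (α v * y) * x * y' := by simp only [mul_assoc]
    _ = y * (α (s⁻¹ v) * x) * y' := by rw [e1]; simp only [mul_assoc]
    _ = y * x * (α (s⁻¹ v) * y') := by rw [hx]; simp only [mul_assoc]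
    _ = y * x * y' * α v := by rw [e2]; simp only [mul_assoc]

theorem bk_conj (α : V →* A) (s : MulAut V) (y y' : A) (h1 : y * y' = 1) (h2 : y' * y = 1)
    (hy : ∀ u, y * α u = α (s u) * y) (n : A) (hn : n ∈ BKR (cw F α) ⊤) :
    y * n * y' ∈ BKR (cw F α) ⊤ := by
  classical
  let L : A →ₗ[F] A := (LinearMap.mulRight F y').comp (LinearMap.mulLeft F y)
  have hL : ∀ a, L a = y * a * y' := fun _ => rfl
  have key : ∀ (v : V) (m : A), L (cw F α v m) = cw F α (s v) (L m) := by
    intro v m
    rw [hL, hL, cw_apply', cw_apply']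
    have e := swap' α s y y' h1 h2 hy v⁻¹
    calc y * (α v * (m * α v⁻¹)) * y' = (y * α v) * m * (α v⁻¹ * y') := by
          simp only [mul_assoc]
      _ = α (s v) * (y * m * y' * α (s v)⁻¹) := by
        rw [hy v, e, map_inv]; simp only [mul_assoc]
  have hsinj : Function.Injective (s.toMonoidHom : V →* V) := s.injective
  have htop : (⊤ : Subgroup V).map s.toMonoidHom = ⊤ :=
    Subgroup.map_top_of_surjective _ s.surjective
  have hle : BKR (cw F α) ⊤ ≤ (BKR (cw F α) ⊤).comap L := by
    apply Submodule.span_le.2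
    rintro _ ⟨P', S, m, hP, hS, hm, rfl⟩
    change L (∑ x ∈ S, cw F α x m) ∈ BKR (cw F α) ⊤
    refine Submodule.subset_span
      ⟨P'.map s.toMonoidHom, S.image s.toMonoidHom, L m, ?_, ?_, ?_, ?_⟩
    · refine lt_of_le_of_ne le_top fun h => hP.ne ?_
      rw [← htop] at h
      exact Subgroup.map_injective hsinj h
    · have h := IsTv_map hsinj hS
      rwa [htop] at h
    · rintro _ ⟨p, hp, rfl⟩
      change cw F α (s p) (L m) = L m
      rw [← key, hm p hp]
    · rw [map_sum, Finset.sum_image (fun a _ b _ h => hsinj h)]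
      exact Finset.sum_congr rfl fun v _ => key v m
  exact hle hn

theorem pow_conj (y y' z : A) (h2 : y' * y = 1) (n : ℕ) :
    (y * z * y') ^ (n + 1) = y * z ^ (n + 1) * y' := by
  induction n with
  | zero => simp
  | succ n ih =>
    rw [pow_succ, ih, pow_succ z (n + 1)]
    calc y * z ^ (n + 1) * y' * (y * z * y') = y * z ^ (n + 1) * (y' * y) * z * y' := by
          simp only [mul_assoc]
      _ = y * (z ^ (n + 1) * z) * y' := by rw [h2]; simp only [mul_assoc, mul_one]

end

theorem lcn : LcnStmt := by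
  intro F V A _ _ _ _ α s j y y' hj h1 h2 hy
  have hy' : ∀ u, y' * α u = α (s⁻¹ u) * y' := inv_swap α s y y' h1 h2 hy
  have back : ∀ a : A, y' * (y * a * y') * y = a := by
    intro a
    calc y' * (y * a * y') * y = (y' * y) * a * (y' * y) := by simp only [mul_assoc]
      _ = a := by rw [h2, one_mul, mul_one]
  have cc : ∀ a b : A, (y * a * y') * (y * b * y') = y * (a * b) * y' := by
    intro a b
    calc (y * a * y') * (y * b * y') = y * a * (y' * y) * b * y' := by simp only [mul_assoc]
      _ = y * (a * b) * y' := by rw [h2]; simp only [mul_assoc, mul_one]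
  have forth : ∀ a : A, y * (y' * a * y) * y' = a := by
    intro a
    calc y * (y' * a * y) * y' = (y * y') * a * (y * y') := by simp only [mul_assoc]
      _ = a := by rw [h1, one_mul, mul_one]
  refine ⟨fx_conj α s y y' h1 h2 hy j hj.fx, by rw [cc, hj.id], ?_, ?_⟩
  · intro hn
    apply hj.nz
    have h := bk_conj (F := F) α s⁻¹ y' y h2 h1 hy' _ hn
    rwa [back] at h
  · intro x hx
    have hx' : y' * x * y ∈ FxR (cw F α) ⊤ := fx_conj α s⁻¹ y' y h2 h1 hy' x hx
    have e : y * j * y' * x * (y * j * y') = y * (j * (y' * x * y) * j) * y' := by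
      rw [← forth x, cc, cc, back]
    rw [e]
    rcases hj.loc _ hx' with ⟨n, hn⟩ | ⟨w, hw, hw1, hw2⟩
    · left
      refine ⟨n + 1, ?_⟩
      rw [pow_conj y y' _ h2, pow_succ, hn]
      simp
    · right
      refine ⟨y * w * y', fx_conj α s y y' h1 h2 hy w hw, ?_, ?_⟩
      · rw [cc, cc, cc, hw1]
      · rw [cc, cc, cc, hw2]

end Pool.Agent.PSS.S5.H80
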