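import Pool.Agent.PSS.StmtsS1e

/-!
# Row LDA of squad PSS: an algebra and a deformation lift to the Witt vectors
-/

open scoped BigOperators TensorProduct

namespace Pool.Agent.PSS.H80

open Pool.Agent.PFD.D2 (Cdv FibG wittCdv witt_charZero)
open Pool.Agent.PFD.D2b (FrR)

theorem lda (hL : LftStmt) (hX : KexStmt) (hT : TlfStmt) (hM : DmrStmt) (hH : H1vStmt) :
    LdaStmt := by
  intro ℓ _ F V E A₀ κ Ω _ _ _ _ _ _ _ _ _ _ _ _ φ W z α₀ lam₀ x₀ y₀ b₀ c₀ u₀ D₀ hRF hFr hSt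
    hVz hu
  haveI : CharZero (WittVector ℓ F) := witt_charZero ℓ F
  obtain ⟨A, rA, aA, fA, frA, f, α, lam, x, y, b, c, u, hLV, hu'⟩ :=
    hL (WittVector ℓ F) F V A₀ κ Ω (wittCdv ℓ F) α₀ lam₀ x₀ y₀ b₀ c₀ u₀ inferInstance hRF hFr hu
  letI := rA
  letI := aA
  haveI := fA
  haveI := frA
  haveI : CharZero (FractionRing (WittVector ℓ F)) :=
    charZero_of_injective_algebraMap
      (IsFractionRing.injective (WittVector ℓ F) (FractionRing (WittVector ℓ F)))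
  obtain ⟨C⟩ := hX (WittVector ℓ F) (FractionRing (WittVector ℓ F)) V A κ Ω α lam x y b c
    hLV.rf hLV.fr
  obtain ⟨P, m, hTr, hm⟩ := hT (WittVector ℓ F) (FractionRing (WittVector ℓ F)) F V E A A₀
    (FractionRing (WittVector ℓ F) ⊗[WittVector ℓ F] A) κ Ω φ W z α lam x y b c C u
    (wittCdv ℓ F) f α₀ D₀ hVz hSt hu' hLV.qa
  obtain ⟨D, hD⟩ := hM (WittVector ℓ F) (FractionRing (WittVector ℓ F)) V A _ W α C.i C.inj C.tow
    P m hTr (fun n a₁ a₂ => by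
      obtain ⟨e, he, -⟩ := hm n a₁ a₂
      exact ⟨e, he⟩)
  refine ⟨A, rA, aA, fA, frA, f, α, lam, x, y, b, c, u, D, hLV, hu', ?_, ?_⟩
  · intro n a a'
    obtain ⟨e, he, hq⟩ := hm n a a'
    have h1 : e = D.m n a a' := C.inj (he.trans (hD n a a').symm)
    rw [← h1, hq]
  · intro δ hδ hw
    obtain ⟨e, he, h2⟩ := hH (WittVector ℓ F) (FractionRing (WittVector ℓ F)) V E A _ κ Ω φ W z
      α lam x y b c C u hVz hu' δ hδ (fun w hw' => hw ⟨w, hw'⟩)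
    exact ⟨e, fun w => he w w.2, h2⟩

end Pool.Agent.PSS.H80
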