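import Pool.Agent.PSS.StmtsS2

/-!
# Row HTR of squad PSS: trivialisation of a free right action
-/

open scoped BigOperators

namespace Pool.Agent.PSS.H80

open Pool.Agent.PSS.S2 Pool.Agent.PFC

theorem htr (hT : TorStmt) : HtrStmt := by
  intro R V E A Ω _ _ _ _ _ _ _ φ α b c hP
  let act : MulAction V Ω :=
    MulAction.compHom Ω (MonoidHom.inr V V)
  have key : ∀ (v : V) (ω : Ω), ((1 : V), v) • ω = ω → v = 1 := by
    intro v ω h
    obtain ⟨e, S, hS⟩ := hP.st ω
    have h1 : ((1 : V), v) ∈ MulAction.stabilizer (V × V) ω := h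
    rw [hS] at h1
    obtain ⟨s, -, hs⟩ := h1
    have h2 : (φ e) s = 1 := congrArg Prod.fst hs
    have h3 : s = v := congrArg Prod.snd hs
    have h4 : s = 1 := (MulEquiv.map_eq_one_iff (φ e)).mp h2
    rw [← h3, h4]
  obtain ⟨H, hH⟩ := @hT V Ω (Additive V) _ act _
    (fun _ v => Additive.ofMul v⁻¹)
    (fun _ _ => rfl)
    (fun _ g g' => by
      rw [mul_inv]; rfl)
    (fun ω g hg => by
      have h := key g ω hg
      rw [h, inv_one]; rfl)
  exact ⟨fun ω => (H ω).toMul, fun v ω => congrArg Additive.toMul (hH v ω)⟩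

end Pool.Agent.PSS.H80
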